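import Pool.Agent.Y853.Blocks

/-!
# Alternating large values of the Mertens function in every block, and short intervals
-/

set_option autoImplicit false

open Filter Topology MeasureTheory Set

namespace Pool.Agent.Y853

noncomputable section

theorem not_pow_lt {a b K : ℝ} (h : a < b) : ∀ᶠ x : ℝ in atTop, ¬ (x ^ b < K * x ^ a) := by
  filter_upwards [(tendsto_rpow_atTop (by linarith : 0 < b - a)).eventually_ge_atTop K,
    eventually_gt_atTop 0] with x h1 h2 h3
  have h4 : x ^ b = x ^ (b - a) * x ^ a := by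
    rw [← Real.rpow_add h2]
    congr 1
    ring
  rw [h4] at h3
  exact absurd h3 (not_lt.2 (mul_le_mul_of_nonneg_right h1 (Real.rpow_nonneg h2.le _)))

/-- if Q1 fails, each sign is taken with a large value on each block -/
theorem one_point (hQ : ¬ QQ1) {c θ : ℝ} (hc : 1 < c) (hθ : θ < 1) {s : ℝ} (hs : s = 1 ∨ s = -1) :
    ∀ᶠ x : ℝ in atTop, ∃ y, x ≤ y ∧ y ≤ c * x ∧ x ^ θ < s * Me y := by
  obtain ⟨C, hC, hd⟩ := dich_one
  obtain ⟨θ', h1, h2, h3, h4⟩ := near_one hC hc hθ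
  obtain ⟨hC1, hd⟩ := hd θ' h1 h3
  rcases hd s hs with h | h
  · exact absurd (QQ1_of h3 h) hQ
  filter_upwards [h, not_pow_lt (a := 1 + θ) (b := 1 + θ') (K := c) (by linarith),
    eventually_gt_atTop 0] with x hx h5 hx0
  by_contra hcon
  push Not at hcon
  refine h5 (hx.trans_le ?_)
  have hle : x ≤ C θ' * x := by nlinarith
  have hθ0 : 0 ≤ x ^ θ := Real.rpow_nonneg hx0.le _
  rw [intervalIntegral.integral_of_le hle]
  have hb : ∀ y ∈ Ioc x (C θ' * x), max (s * Me y) 0 ≤ x ^ θ := by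
    intro y hy
    refine max_le (hcon y hy.1.le (hy.2.trans (mul_le_mul_of_nonneg_right h4 hx0.le))) hθ0
  have hi : IntegrableOn (fun y => max (s * Me y) 0) (Ioc x (C θ' * x)) := by
    refine bdd_int ?_ (C := x ^ θ) fun t ht => ?_
    · exact ((SS_meas H353.aM).const_mul s).max measurable_const
    · rw [abs_of_nonneg (le_max_right _ _)]
      exact hb t ht
  calc ∫ y in Ioc x (C θ' * x), max (s * Me y) 0 ≤ ∫ _y in Ioc x (C θ' * x), x ^ θ :=
        setIntegral_mono_on hi (integrableOn_const (by simp)) measurableSet_Ioc hb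
    _ = (C θ' * x - x) * x ^ θ := by
        rw [setIntegral_const, smul_eq_mul, Measure.real, Real.volume_Ioc,
          ENNReal.toReal_ofReal (by linarith)]
    _ ≤ (c * x) * x ^ θ := by
        refine mul_le_mul_of_nonneg_right ?_ hθ0
        nlinarith
    _ = c * x ^ (1 + θ) := by
        rw [add_comm, Real.rpow_add_one hx0.ne']
        ring

/-- `k` alternating values larger than `x^θ` in absolute value on `[x, c x]` -/
def Alt (k : ℕ) (θ c x : ℝ) : Prop := ∃ y : Fin k → ℝ, StrictMono y ∧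
  ∀ j, x ≤ y j ∧ y j ≤ c * x ∧ x ^ θ < (-1) ^ (j : ℕ) * Me (y j)

theorem many_points (hQ : ¬ QQ1) {c θ : ℝ} (hc : 1 < c) (hθ : θ < 1) (k : ℕ) :
    ∀ᶠ x : ℝ in atTop, Alt k θ c x := by
  rcases k with _ | k
  · refine Eventually.of_forall fun x => ⟨fun j => j.elim0, fun i => i.elim0, fun j => j.elim0⟩
  set θ0 : ℝ := max θ 0 with hθ0
  have h01 : θ0 < 1 := max_lt hθ one_pos
  set q : ℝ := c ^ ((1:ℝ) / (k + 1 : ℕ)) with hq
  have hc0 : 0 < c := by linarith
  have hkp : (0:ℝ) < (k + 1 : ℕ) := by positivity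
  have hq1 : 1 < q := Real.one_lt_rpow hc (by positivity)
  have hqk : q ^ (k + 1) = c := by
    rw [hq, ← Real.rpow_natCast, ← Real.rpow_mul hc0.le, one_div, inv_mul_cancel₀ hkp.ne', Real.rpow_one]
  have hq0 : 0 < q := by linarith
  have hpt : ∀ j : Fin (k + 1), ∀ᶠ x : ℝ in atTop,
      ∃ y, q ^ (j:ℕ) * x ≤ y ∧ y ≤ q * (q ^ (j:ℕ) * x) ∧ (q ^ (j:ℕ) * x) ^ θ0 < (-1) ^ (j:ℕ) * Me y := by
    intro j
    have hs : ((-1:ℝ)) ^ (j:ℕ) = 1 ∨ ((-1:ℝ)) ^ (j:ℕ) = -1 := neg_one_pow_eq_or ℝ _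
    have h := one_point hQ hq1 h01 hs
    exact (tendsto_id.const_mul_atTop (by positivity : 0 < q ^ (j:ℕ))).eventually h
  filter_upwards [eventually_all.2 hpt, eventually_ge_atTop 1] with x hx hx1
  choose y hy1 hy2 hy3 using hx
  have hx0 : 0 < x := by linarith
  refine ⟨y, ?_, fun j => ⟨?_, ?_, ?_⟩⟩
  · rw [Fin.strictMono_iff_lt_succ]
    intro i
    have a1 := hy2 i.castSucc
    have a2 := hy1 i.succ
    have a3 := hy3 i.castSucc
    have a4 := hy3 i.succ
    simp only [Fin.val_castSucc, Fin.val_succ] at a1 a2 a3 a4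
    have a5 : y i.castSucc ≤ y i.succ := by
      refine a1.trans (le_trans (le_of_eq ?_) a2)
      rw [pow_succ]; ring
    refine lt_of_le_of_ne a5 fun he => ?_
    rw [← he, pow_succ] at a4
    have b1 : 0 ≤ (q ^ (i:ℕ) * x) ^ θ0 := Real.rpow_nonneg (by positivity) _
    have b2 : 0 ≤ (q ^ (i:ℕ) * q * x) ^ θ0 := Real.rpow_nonneg (by positivity) _
    have a4' : (q ^ (i:ℕ) * q * x) ^ θ0 < -((-1) ^ (i:ℕ) * Me (y i.castSucc)) := by
      have e : (-1:ℝ) ^ ((i:ℕ) + 1) * Me (y i.castSucc) = -((-1) ^ (i:ℕ) * Me (y i.castSucc)) := by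
        rw [pow_succ]; ring
      rw [← e]
      exact a4
    linarith
  · refine le_trans ?_ (hy1 j)
    have : 1 ≤ q ^ (j:ℕ) := one_le_pow₀ hq1.le
    nlinarith
  · refine (hy2 j).trans ?_
    have h5 : q * (q ^ (j:ℕ) * x) = q ^ ((j:ℕ) + 1) * x := by rw [pow_succ]; ring
    rw [h5, ← hqk]
    refine mul_le_mul_of_nonneg_right ?_ hx0.le
    exact pow_le_pow_right₀ hq1.le (by have := j.2; omega)
  · refine lt_of_le_of_lt ?_ (hy3 j)
    calc x ^ θ ≤ x ^ θ0 := Real.rpow_le_rpow_of_exponent_le hx1 (le_max_left _ _)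
      _ ≤ (q ^ (j:ℕ) * x) ^ θ0 := by
          refine Real.rpow_le_rpow hx0.le ?_ (le_max_right _ _)
          have : 1 ≤ q ^ (j:ℕ) := one_le_pow₀ hq1.le
          nlinarith

theorem iff_alt : QQ1 ↔ ∃ c θ : ℝ, ∃ k : ℕ, 1 < c ∧ θ < 1 ∧ ∃ᶠ x : ℝ in atTop, ¬ Alt k θ c x := by
  constructor
  · intro hQ
    obtain ⟨θ, C, h1, h2, h3, h4⟩ := QQ1_norm hQ
    refine ⟨2, (θ + 1) / 2, 1, by norm_num, by linarith, Eventually.frequently ?_⟩
    filter_upwards [not_pow_lt (a := θ) (b := (θ + 1) / 2) (K := C * 2 ^ θ) (by linarith),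
      eventually_ge_atTop 1] with x hx hx1
    rintro ⟨y, -, hy⟩
    obtain ⟨a1, a2, a3⟩ := hy 0
    refine hx (a3.trans_le ?_)
    simp only [Fin.val_zero, pow_zero, one_mul]
    have hy1 : 1 ≤ y 0 := hx1.trans a1
    refine (le_abs_self _).trans ((h4 _ hy1).trans ?_)
    rw [mul_assoc, ← Real.mul_rpow (by norm_num) (by linarith)]
    refine mul_le_mul_of_nonneg_left (Real.rpow_le_rpow (by linarith) a2 (by linarith)) h3.le
  · rintro ⟨c, θ, k, hc, hθ, hf⟩
    by_contra hQ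
    obtain ⟨x, h1, h2⟩ := (hf.and_eventually (many_points hQ hc hθ k)).exists
    exact h1 h2

theorem iff_short : QQ1 ↔ ∃ c θ s : ℝ, 1 < c ∧ θ < 1 ∧ (s = 1 ∨ s = -1) ∧ ∃ᶠ x : ℝ in atTop,
    ∃ H : ℝ, 1 ≤ H ∧ H ≤ x ^ θ ∧ ∫ y in x..(c * x), max (s * (Me (y + H) - Me y)) 0 ≤ H * x ^ θ := by
  constructor
  · intro hQ
    obtain ⟨θ, C, h1, h2, h3, h4⟩ := QQ1_norm hQ
    refine ⟨2, (θ + 3) / 4, 1, by norm_num, by linarith, Or.inl rfl, Eventually.frequently ?_⟩
    filter_upwards [not_pow_lt (a := 1 + θ) (b := (θ + 3) / 2) (K := 2 * C * 3 ^ θ) (by linarith),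
      eventually_ge_atTop 1] with x hx hx1
    have hx0 : 0 < x := by linarith
    have hH1 : 1 ≤ x ^ ((θ + 3) / 4) := Real.one_le_rpow hx1 (by linarith)
    have hHx : x ^ ((θ + 3) / 4) ≤ x := by
      calc x ^ ((θ + 3) / 4) ≤ x ^ (1:ℝ) := Real.rpow_le_rpow_of_exponent_le hx1 (by linarith)
        _ = x := Real.rpow_one x
    set H : ℝ := x ^ ((θ + 3) / 4) with hH
    refine ⟨H, hH1, le_rfl, ?_⟩
    have hb : ∀ y ∈ Ioc x (2 * x), max (1 * (Me (y + H) - Me y)) 0 ≤ 2 * C * 3 ^ θ * x ^ θ := by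
      intro y hy
      refine max_le ?_ (by positivity)
      have hy0 : 1 ≤ y := by linarith [hy.1]
      have b1 := h4 y hy0
      have b2 := h4 (y + H) (by linarith)
      have b3 : y ^ θ ≤ (3 * x) ^ θ := Real.rpow_le_rpow (by linarith) (by linarith [hy.2]) (by linarith)
      have b4 : (y + H) ^ θ ≤ (3 * x) ^ θ :=
        Real.rpow_le_rpow (by linarith) (by linarith [hy.2]) (by linarith)
      have b5 : (3 * x) ^ θ = 3 ^ θ * x ^ θ := Real.mul_rpow (by norm_num) hx0.le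
      have b6 := abs_le.1 b1
      have b7 := abs_le.1 b2
      rw [b5] at b3 b4
      nlinarith
    have hi : IntegrableOn (fun y => max (1 * (Me (y + H) - Me y)) 0) (Ioc x (2 * x)) := by
      refine bdd_int ?_ (C := 2 * C * 3 ^ θ * x ^ θ) fun t ht => ?_
      · exact DD_meas H353.aM 1 measurable_id measurable_const
      · rw [abs_of_nonneg (le_max_right _ _)]
        exact hb t ht
    rw [intervalIntegral.integral_of_le (by linarith)]
    calc ∫ y in Ioc x (2 * x), max (1 * (Me (y + H) - Me y)) 0 ≤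
        ∫ _y in Ioc x (2 * x), 2 * C * 3 ^ θ * x ^ θ :=
          setIntegral_mono_on hi (integrableOn_const (by simp)) measurableSet_Ioc hb
      _ = x * (2 * C * 3 ^ θ * x ^ θ) := by
          rw [setIntegral_const, smul_eq_mul, Measure.real, Real.volume_Ioc,
            ENNReal.toReal_ofReal (by linarith)]
          ring
      _ = 2 * C * 3 ^ θ * x ^ (1 + θ) := by
          rw [add_comm 1 θ, Real.rpow_add_one hx0.ne']
          ring
      _ ≤ x ^ ((θ + 3) / 2) := not_lt.1 hx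
      _ ≤ x ^ ((θ + 3) / 4 + (θ + 3) / 4) := Real.rpow_le_rpow_of_exponent_le hx1 (by linarith)
      _ = H * x ^ ((θ + 3) / 4) := by rw [hH, ← Real.rpow_add hx0]
  · rintro ⟨c, θ, s, hc, hθ, hs, hf⟩
    obtain ⟨C, hC, hd⟩ := dich_two
    obtain ⟨θ', h1, h2, h3, h4⟩ := near_one hC hc hθ
    obtain ⟨hC1, hd⟩ := hd θ' h1 h3
    rcases hd s hs with h | h
    · exact QQ1_of h3 h
    exfalso
    obtain ⟨x, ⟨H, b1, b2, b3⟩, b4, b5⟩ := (hf.and_eventually (h.and (eventually_ge_atTop 1))).exists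
    have hx0 : 0 < x := by linarith
    have hpow : x ^ θ ≤ x ^ θ' := Real.rpow_le_rpow_of_exponent_le b5 h2.le
    have b6 := b4 H b1 (b2.trans hpow)
    have hle : x ≤ C θ' * x := by nlinarith
    have hle2 : C θ' * x ≤ c * x := mul_le_mul_of_nonneg_right h4 hx0.le
    rw [intervalIntegral.integral_of_le hle] at b6
    rw [intervalIntegral.integral_of_le (hle.trans hle2)] at b3
    have hi : IntegrableOn (fun y => max (s * (Me (y + H) - Me y)) 0) (Ioc x (c * x)) :=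
      DD_int aM_le (by rcases hs with rfl | rfl <;> simp) (by linarith) hx0.le
    have b7 : ∫ y in Ioc x (C θ' * x), max (s * (Me (y + H) - Me y)) 0 ≤
        ∫ y in Ioc x (c * x), max (s * (Me (y + H) - Me y)) 0 :=
      setIntegral_mono_set hi (ae_of_all _ fun y => le_max_right _ _)
        (Ioc_subset_Ioc_right hle2).eventuallyLE
    have b8 : H * x ^ θ ≤ H * x ^ θ' := mul_le_mul_of_nonneg_left hpow (by linarith)
    linarith

end

end Pool.Agent.Y853
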