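import Pool.Agent.Y853.ShortBias

/-!
# The Mertens function on one block: one-sided criteria

The dichotomies behind `OneSidedBlocks` and `ShortIntervalBias`.
-/

set_option autoImplicit false

open Filter Topology MeasureTheory Set
open H353 (CutW bdW aM)

namespace Pool.Agent.Y853

noncomputable section

/-- the Mertens function -/
def Me (x : ℝ) : ℝ := ∑ n ∈ Finset.Icc 1 ⌊x⌋₊, ((ArithmeticFunction.moebius n : ℤ) : ℝ)

theorem Me_eq (y : ℝ) : Me y = SS aM y := rfl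

theorem aM_zero : aM 0 = 0 := by simp [aM]

theorem aM_le (n : ℕ) : |aM n| ≤ 1 := by
  unfold aM
  have := @ArithmeticFunction.abs_moebius_le_one n
  exact_mod_cast this

theorem cut_gt {A : ℝ} {W : ℝ → ℝ} (hW : CutW A W) : 1 < A := by
  by_contra h
  have h1 := hW.2.1 1 le_rfl
  have h2 := hW.2.2 1 (not_lt.1 h)
  linarith

/-- if the mean of `|M|` on a fixed proportion block is small for arbitrarily large `X`, there are no zeros -/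
theorem free_of_small {θ p c K : ℝ} (hθ : 1 / 2 ≤ θ) (hp : 1 ≤ p) (hc : 0 < c)
    (h : ∃ᶠ X : ℝ in atTop, ∫ y in (p * X)..(p * X + c * (p * X)), |Me y| ≤ K * X ^ (1 + θ)) :
    ∀ s : ℂ, θ < s.re → riemannZeta s ≠ 0 := by
  intro ρ hρ h0
  set θ' : ℝ := (θ + ρ.re) / 2 with hθ'
  have h1 : θ < θ' := by rw [hθ']; linarith
  have h2 : θ' < ρ.re := by rw [hθ']; linarith
  have hw := Pool.Agent.W190.moebius_window (κ := 0) (c := c) (δ := 0) (θ := θ') le_rfl hc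
    one_pos (by linarith) (by nlinarith [sq_nonneg (2 * θ' - 1)]) ⟨ρ, h0, h2⟩
  have hp0 : 0 < p := by linarith
  have hw' := (tendsto_id.const_mul_atTop hp0).eventually hw
  have hgrow := (tendsto_rpow_atTop (by linarith : 0 < θ' - θ)).eventually_ge_atTop (K)
  obtain ⟨X, hX1, hX2, hX3, hX4⟩ := (h.and_eventually (hw'.and (hgrow.and (eventually_ge_atTop 1)))).exists
  have hX0 : 0 < X := by linarith
  have h4 := hX2 0 (by
    rw [Polynomial.natDegree_zero, Nat.cast_zero, Real.rpow_zero]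
    exact zero_le_one)
  have e : ∫ y in (p * id X)..(p * id X + c * (p * id X) / Real.log (p * id X) ^ (0:ℝ)),
      |Pool.Agent.W190.SF (fun n => ((ArithmeticFunction.moebius n : ℤ) : ℝ)) y - (0 : Polynomial ℝ).eval y| =
      ∫ y in (p * X)..(p * X + c * (p * X)), |Me y| := by
    simp only [id_eq, Real.rpow_zero, div_one, Polynomial.eval_zero, sub_zero]
    rfl
  rw [e] at h4
  have h5 : X ^ (1 + θ') ≤ (p * id X) ^ (1 + θ') := by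
    refine Real.rpow_le_rpow hX0.le ?_ (by linarith)
    simp only [id_eq]
    nlinarith
  have h6 : K * X ^ (1 + θ) ≤ X ^ (1 + θ') := by
    calc K * X ^ (1 + θ) ≤ X ^ (θ' - θ) * X ^ (1 + θ) :=
          mul_le_mul_of_nonneg_right hX3 (Real.rpow_nonneg hX0.le _)
      _ = X ^ (1 + θ') := by
          rw [← Real.rpow_add hX0]
          congr 1
          ring
  linarith

theorem free_one {A θ : ℝ} {W : ℝ → ℝ} (hθ : 1 / 2 ≤ θ) (hW : CutW A W) (hm : Monotone W) (hb : bdW aM θ W)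
    {s : ℝ} (hs : s = 1 ∨ s = -1)
    (h : ∃ᶠ X : ℝ in atTop, ∫ y in X..(A * X), max (s * Me y) 0 ≤ X ^ (1 + θ)) :
    ∀ s : ℂ, θ < s.re → riemannZeta s ≠ 0 := by
  obtain ⟨p, c, K, hp, hc, hK, hcore⟩ := core (cut_gt hW) hW hm aM aM_zero hb
  refine free_of_small (K := K * 2) hθ hp hc ?_
  refine (h.and_eventually (eventually_ge_atTop 1)).mono fun X hX => ?_
  refine (hcore X s hX.2 hs).trans ?_
  have h1 : (∫ y in X..(A * X), max (s * SS aM y) 0) ≤ X ^ (1 + θ) := hX.1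
  calc K * ((∫ y in X..(A * X), max (s * SS aM y) 0) + X ^ (1 + θ)) ≤ K * (X ^ (1 + θ) + X ^ (1 + θ)) := by
        gcongr
    _ = K * 2 * X ^ (1 + θ) := by ring

theorem free_two {A θ : ℝ} {W : ℝ → ℝ} (hθ : 1 / 2 ≤ θ) (hW : CutW A W) (hm : Monotone W) (hb : bdW aM θ W)
    {s : ℝ} (hs : s = 1 ∨ s = -1)
    (h : ∃ᶠ X : ℝ in atTop, ∃ H : ℝ, 1 ≤ H ∧ H ≤ X ^ θ ∧
      ∫ y in X..(A ^ 3 * X), max (s * (Me (y + H) - Me y)) 0 ≤ H * X ^ θ) :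
    ∀ s : ℂ, θ < s.re → riemannZeta s ≠ 0 := by
  have hA := cut_gt hW
  have hA0 : 0 < A := by linarith
  obtain ⟨p, c, K, hp, hc, hK, hcore⟩ := core hA hW hm aM aM_zero hb
  obtain ⟨K2, hK2, hcl2⟩ := claim2 hA hW hm aM_zero aM_le hb
  have hA21 : 0 < A ^ 2 - 1 := by nlinarith
  have hs1 : |s| = 1 := by rcases hs with rfl | rfl <;> simp
  refine free_of_small (p := p * A) (c := c)
    (K := K * (K2 * ((A ^ 2 - 1) + (A - 1) * 2 + 1) + A ^ (1 + θ))) hθ (by nlinarith) hc ?_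
  refine (h.and_eventually (eventually_ge_atTop 1)).mono fun X hX => ?_
  obtain ⟨⟨H, hH1, hH2, hH3⟩, hX1⟩ := hX
  have hX0 : 0 < X := by linarith
  have hA3 : X ≤ A ^ 3 * X := by
    have : 1 ≤ A ^ 3 := one_le_pow₀ hA.le
    nlinarith
  rw [intervalIntegral.integral_of_le hA3] at hH3
  have hθ0 : 0 ≤ X ^ θ := Real.rpow_nonneg hX0.le _
  set J : ℝ := (A ^ 2 - 1) * X * X ^ θ + (A - 1) * X * (2 * H) with hJ
  have hJ0 : 0 ≤ J := by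
    have : 0 ≤ A - 1 := by linarith
    positivity
  have h1 := hcl2 X s J hX1 hs hJ0 fun d hd hd2 =>
    claim1 (I := X ^ θ) aM_le hA hX1 hH1 hs1 hH3 hθ0 hd hd2
  have hXX : X * X ^ θ = X ^ (1 + θ) := by
    rw [add_comm, Real.rpow_add_one hX0.ne', mul_comm]
  have hJ1 : J ≤ ((A ^ 2 - 1) + (A - 1) * 2) * X ^ (1 + θ) := by
    have h2 : (A - 1) * X * (2 * H) ≤ (A - 1) * X * (2 * X ^ θ) := by
      have : 0 ≤ A - 1 := by linarith
      gcongr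
    calc J ≤ (A ^ 2 - 1) * X * X ^ θ + (A - 1) * X * (2 * X ^ θ) := by rw [hJ]; linarith
      _ = ((A ^ 2 - 1) + (A - 1) * 2) * (X * X ^ θ) := by ring
      _ = _ := by rw [hXX]
  have hAX1 : 1 ≤ A * X := by nlinarith
  have h3 := hcore (A * X) s hAX1 hs
  have e1 : A * (A * X) = A ^ 2 * X := by ring
  have hle : A * X ≤ A ^ 2 * X := by nlinarith [mul_pos hA0 hX0]
  rw [e1, intervalIntegral.integral_of_le hle] at h3
  have e2 : p * (A * X) = p * A * X := by ring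
  rw [e2] at h3
  refine h3.trans ?_
  have hXp : 0 ≤ X ^ (1 + θ) := Real.rpow_nonneg hX0.le _
  have h4 : (∫ y in Ioc (A * X) (A ^ 2 * X), max (s * SS aM y) 0) ≤
      K2 * ((A ^ 2 - 1) + (A - 1) * 2 + 1) * X ^ (1 + θ) := by
    refine h1.trans ?_
    calc K2 * (J + X ^ (1 + θ)) ≤ K2 * (((A ^ 2 - 1) + (A - 1) * 2) * X ^ (1 + θ) + X ^ (1 + θ)) := by
          gcongr
      _ = _ := by ring
  have e3 : (A * X) ^ (1 + θ) = A ^ (1 + θ) * X ^ (1 + θ) := Real.mul_rpow hA0.le hX0.le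
  rw [e3]
  calc K * ((∫ y in Ioc (A * X) (A ^ 2 * X), max (s * SS aM y) 0) + A ^ (1 + θ) * X ^ (1 + θ))
      ≤ K * (K2 * ((A ^ 2 - 1) + (A - 1) * 2 + 1) * X ^ (1 + θ) + A ^ (1 + θ) * X ^ (1 + θ)) := by
        gcongr
    _ = _ := by ring

/-- the lengths of the blocks -/
theorem exists_cuts : ∃ A : ℝ → ℝ, Tendsto A (𝓝[<] 1) (𝓝 1) ∧ ∀ θ : ℝ, 1 / 2 < θ → θ < 1 →
    ∃ W, CutW (A θ) W ∧ Monotone W ∧ bdW aM θ W := H353.main_mu.2.1

/-- power saving -/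
theorem saving_of_free {θ : ℝ} (hθ : 1 / 2 ≤ θ) (h : ∀ s : ℂ, θ < s.re → riemannZeta s ≠ 0) :
    ∀ ε : ℝ, 0 < ε → ∃ K : ℝ, ∀ x : ℝ, 1 ≤ x → |Me x| ≤ K * x ^ (θ + ε) := by
  intro ε hε
  obtain ⟨C, hC⟩ := H353.mertens_of_free θ hθ h (θ + ε) (by linarith)
  exact ⟨C, fun x hx => hC x hx⟩

theorem dich_one : ∃ C : ℝ → ℝ, Tendsto C (𝓝[<] 1) (𝓝 1) ∧ ∀ θ : ℝ, 1 / 2 < θ → θ < 1 → 1 < C θ ∧
    ∀ s : ℝ, (s = 1 ∨ s = -1) →
      (∀ ε : ℝ, 0 < ε → ∃ K : ℝ, ∀ x : ℝ, 1 ≤ x → |Me x| ≤ K * x ^ (θ + ε)) ∨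
      (∀ᶠ x : ℝ in atTop, x ^ (1 + θ) < ∫ y in x..(C θ * x), max (s * Me y) 0) := by
  obtain ⟨A, hA, hW⟩ := exists_cuts
  refine ⟨A, hA, fun θ h1 h2 => ?_⟩
  obtain ⟨W, a, b, c⟩ := hW θ h1 h2
  refine ⟨cut_gt a, fun s hs => ?_⟩
  by_cases hcase : ∃ᶠ X : ℝ in atTop, ∫ y in X..(A θ * X), max (s * Me y) 0 ≤ X ^ (1 + θ)
  · exact Or.inl (saving_of_free h1.le (free_one h1.le a b c hs hcase))
  · right
    rw [not_frequently] at hcase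
    exact hcase.mono fun x hx => not_le.1 hx

theorem dich_two : ∃ C : ℝ → ℝ, Tendsto C (𝓝[<] 1) (𝓝 1) ∧ ∀ θ : ℝ, 1 / 2 < θ → θ < 1 → 1 < C θ ∧
    ∀ s : ℝ, (s = 1 ∨ s = -1) →
      (∀ ε : ℝ, 0 < ε → ∃ K : ℝ, ∀ x : ℝ, 1 ≤ x → |Me x| ≤ K * x ^ (θ + ε)) ∨
      (∀ᶠ x : ℝ in atTop, ∀ H : ℝ, 1 ≤ H → H ≤ x ^ θ →
        H * x ^ θ < ∫ y in x..(C θ * x), max (s * (Me (y + H) - Me y)) 0) := by
  obtain ⟨A, hA, hW⟩ := exists_cuts
  refine ⟨fun θ => A θ ^ 3, by simpa using hA.pow 3, fun θ h1 h2 => ?_⟩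
  obtain ⟨W, a, b, c⟩ := hW θ h1 h2
  refine ⟨one_lt_pow₀ (cut_gt a) (by norm_num), fun s hs => ?_⟩
  by_cases hcase : ∃ᶠ X : ℝ in atTop, ∃ H : ℝ, 1 ≤ H ∧ H ≤ X ^ θ ∧
      ∫ y in X..(A θ ^ 3 * X), max (s * (Me (y + H) - Me y)) 0 ≤ H * X ^ θ
  · exact Or.inl (saving_of_free h1.le (free_two h1.le a b c hs hcase))
  · right
    rw [not_frequently] at hcase
    refine hcase.mono fun x hx H h3 h4 => ?_
    by_contra h5
    exact hx ⟨H, h3, h4, not_lt.1 h5⟩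

/-- Q1: a power saving for the Mertens function. -/
def QQ1 : Prop := ∃ ε C : ℝ, ε < 1 / 2 ∧ ∀ x : ℝ, 1 ≤ x → |Me x| ≤ C * x ^ (1 / 2 + ε)

theorem QQ1_of {θ : ℝ} (h2 : θ < 1)
    (h : ∀ ε : ℝ, 0 < ε → ∃ K : ℝ, ∀ x : ℝ, 1 ≤ x → |Me x| ≤ K * x ^ (θ + ε)) : QQ1 := by
  obtain ⟨K, hK⟩ := h ((1 - θ) / 2) (by linarith)
  refine ⟨θ + (1 - θ) / 2 - 1 / 2, K, by linarith, fun x hx => ?_⟩
  have e : 1 / 2 + (θ + (1 - θ) / 2 - 1 / 2) = θ + (1 - θ) / 2 := by ring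
  rw [e]
  exact hK x hx

/-- under Q1 there is a bound with an exponent in `(1/2, 1)` and a positive constant -/
theorem QQ1_norm (h : QQ1) : ∃ θ C : ℝ, 1 / 2 < θ ∧ θ < 1 ∧ 0 < C ∧ ∀ x : ℝ, 1 ≤ x → |Me x| ≤ C * x ^ θ := by
  obtain ⟨ε, C, hε, hC⟩ := h
  refine ⟨max (1 / 2 + ε) (3 / 4), |C| + 1, lt_of_lt_of_le (by norm_num) (le_max_right _ _),
    max_lt (by linarith) (by norm_num), by positivity, fun x hx => (hC x hx).trans ?_⟩
  have hx0 : 0 < x := by linarith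
  have h1 : C ≤ |C| + 1 := (le_abs_self C).trans (by linarith)
  calc C * x ^ (1 / 2 + ε) ≤ (|C| + 1) * x ^ (1 / 2 + ε) :=
        mul_le_mul_of_nonneg_right h1 (Real.rpow_nonneg hx0.le _)
    _ ≤ (|C| + 1) * x ^ (max (1 / 2 + ε) (3 / 4)) := by
        refine mul_le_mul_of_nonneg_left ?_ (by positivity)
        exact Real.rpow_le_rpow_of_exponent_le hx (le_max_left _ _)

/-- the block lengths can be taken below any `c > 1` -/
theorem near_one {C : ℝ → ℝ} (hC : Tendsto C (𝓝[<] 1) (𝓝 1)) {c θ : ℝ} (hc : 1 < c) (hθ : θ < 1) :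
    ∃ θ' : ℝ, 1 / 2 < θ' ∧ θ < θ' ∧ θ' < 1 ∧ C θ' ≤ c := by
  have h1 : ∀ᶠ t in 𝓝[<] (1:ℝ), C t < c := hC.eventually_lt_const hc
  have h2 : ∀ᶠ t in 𝓝[<] (1:ℝ), max θ (1 / 2) < t ∧ t < 1 :=
    Ioo_mem_nhdsLT (max_lt hθ (by norm_num))
  obtain ⟨t, ht1, ht2, ht3⟩ := (h1.and h2).exists
  exact ⟨t, (le_max_right _ _).trans_lt ht2, (le_max_left _ _).trans_lt ht2, ht3, ht1.le⟩

end

end Pool.Agent.Y853
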