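import Pool.Agent.H353R3.S8
import Pool.Agent.W190.A16

/-!
# One-sided bounds on one block control both signs

`S(y) = ∑_{n ≤ y} a n`, `W` a nondecreasing smooth cutoff of length `A` for which
`∑ a n W (x / n) = O(x^θ)`.  Then the mean of `|S|` over a fixed sub-block of `[X, A X]` is controlled by
the mean of the positive (or of the negative) part of `S` over `[X, A X]`.
-/

set_option autoImplicit false

open Filter Topology MeasureTheory Set
open scoped ContDiff
open H353 (CutW bdW)

namespace Pool.Agent.Y853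

noncomputable section

/-- the summatory function -/
def SS (a : ℕ → ℝ) (y : ℝ) : ℝ := ∑ n ∈ Finset.Icc 1 ⌊y⌋₊, a n

theorem SS_meas (a : ℕ → ℝ) : Measurable (SS a) := by
  have : SS a = (fun n : ℕ => ∑ k ∈ Finset.Icc 1 n, a k) ∘ (fun y : ℝ => ⌊y⌋₊) := rfl
  rw [this]
  exact measurable_from_nat.comp Nat.measurable_floor

theorem SS_bdd (a : ℕ → ℝ) {x t : ℝ} (h : t ≤ x) :
    |SS a t| ≤ ∑ n ∈ Finset.Icc 1 ⌊x⌋₊, |a n| := by
  unfold SS
  refine (Finset.abs_sum_le_sum_abs _ _).trans ?_
  refine Finset.sum_le_sum_of_subset_of_nonneg ?_ fun _ _ _ => abs_nonneg _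
  exact Finset.Icc_subset_Icc_right (Nat.floor_mono h)

/-- integrability of continuous functions times functions of the summatory function -/
theorem int_mul (a : ℕ → ℝ) (φ : ℝ → ℝ) (hφ : Measurable φ) (hφ1 : ∀ y, |φ y| ≤ |y|) (k : ℝ → ℝ) {p x : ℝ}
    (hk : ContinuousOn k (Icc p x)) :
    IntegrableOn (fun t => k t * φ (SS a t)) (Ioc p x) := by
  have h1 : IntegrableOn k (Icc p x) := hk.integrableOn_compact isCompact_Icc
  have h2 : IntegrableOn k (Ioc p x) := h1.mono_set Ioc_subset_Icc_self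
  refine Integrable.mul_bdd (c := ∑ n ∈ Finset.Icc 1 ⌊x⌋₊, |a n|) h2
    ((hφ.comp (SS_meas a)).aestronglyMeasurable) ?_
  filter_upwards [ae_restrict_mem measurableSet_Ioc] with t ht
  rw [Real.norm_eq_abs]
  exact (hφ1 _).trans (SS_bdd a ht.2)

theorem deriv_zero_of_ge {A : ℝ} {W : ℝ → ℝ} (hW : CutW A W) {y : ℝ} (hy : A ≤ y) : deriv W y = 0 := by
  have hd : DifferentiableAt ℝ W y := (hW.1.differentiable (by simp)).differentiableAt
  have h1 : HasDerivWithinAt W (deriv W y) (Ici y) y := hd.hasDerivAt.hasDerivWithinAt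
  have h2 : HasDerivWithinAt W 0 (Ici y) y := by
    refine (hasDerivWithinAt_const y (Ici y) (1:ℝ)).congr ?_ (hW.2.2 y hy)
    intro z hz
    exact hW.2.2 z (hy.trans hz)
  exact (uniqueDiffWithinAt_Ici y).eq_deriv _ h1 h2

theorem abel {A : ℝ} {W : ℝ → ℝ} (hW : CutW A W) (a : ℕ → ℝ) (ha0 : a 0 = 0) {x : ℝ} (hx : 1 ≤ x) :
    ∑ n ∈ Finset.Icc 1 ⌊x⌋₊, a n * W (x / n) = ∫ t in Ioc 1 x, (x / t ^ 2 * deriv W (x / t)) * SS a t := by
  have hWd : Differentiable ℝ W := hW.1.differentiable (by simp)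
  have hder : ∀ t ∈ Set.Icc (1:ℝ) x, HasDerivAt (fun t : ℝ => W (x / t)) (deriv W (x / t) * (-(x / t ^ 2))) t := by
    intro t ht
    have ht0 : t ≠ 0 := by linarith [ht.1]
    have h1 : HasDerivAt (fun t : ℝ => x / t) (-(x / t ^ 2)) t := by
      have := (hasDerivAt_const t x).div (hasDerivAt_id t) ht0
      refine this.congr_deriv ?_
      simp only [id_eq]
      ring
    exact (hWd (x / t)).hasDerivAt.comp t h1
  have hcont : ContinuousOn (fun t : ℝ => deriv W (x / t) * (-(x / t ^ 2))) (Icc 1 x) := by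
    have hdc : Continuous (deriv W) := hW.1.continuous_deriv (by simp)
    have h0 : ∀ t ∈ Icc (1:ℝ) x, t ≠ 0 := fun t ht => by linarith [ht.1]
    refine ContinuousOn.mul ?_ ?_
    · exact hdc.comp_continuousOn (continuousOn_const.div continuousOn_id h0)
    · exact (continuousOn_const.div (continuousOn_id.pow 2) fun t ht => pow_ne_zero 2 (h0 t ht)).neg
  have hderiv : EqOn (deriv (fun t : ℝ => W (x / t))) (fun t : ℝ => deriv W (x / t) * (-(x / t ^ 2))) (Icc 1 x) :=
    fun t ht => (hder t ht).deriv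
  have h := sum_mul_eq_sub_integral_mul₀ (f := fun t : ℝ => W (x / t)) (𝕜 := ℝ) a ha0 x
    (fun t ht => (hder t ht).differentiableAt)
    ((hcont.integrableOn_compact isCompact_Icc).congr_fun hderiv.symm measurableSet_Icc)
  have e1 : ∑ k ∈ Finset.Icc 0 ⌊x⌋₊, W (x / (k:ℝ)) * a k = ∑ n ∈ Finset.Icc 1 ⌊x⌋₊, a n * W (x / n) := by
    rw [Finset.Icc_eq_cons_Ioc (Nat.zero_le _), Finset.sum_cons, ha0, mul_zero, zero_add]
    refine Finset.sum_congr ?_ fun n _ => mul_comm _ _
    ext n
    simp [Finset.mem_Ioc, Finset.mem_Icc]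
    omega
  have e2 : ∀ y : ℝ, ∑ k ∈ Finset.Icc 0 ⌊y⌋₊, a k = SS a y := by
    intro y
    unfold SS
    rw [Finset.Icc_eq_cons_Ioc (Nat.zero_le _), Finset.sum_cons, ha0, zero_add]
    refine Finset.sum_congr ?_ fun n _ => rfl
    ext n
    simp [Finset.mem_Ioc, Finset.mem_Icc]
    omega
  have e3 : W (x / x) = 0 := by
    rw [div_self (by linarith)]
    exact hW.2.1 1 le_rfl
  rw [← e1, h, e3, zero_mul, zero_sub, ← integral_neg]
  refine setIntegral_congr_fun measurableSet_Ioc fun t ht => ?_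
  have := hderiv (Ioc_subset_Icc_self ht)
  simp only at this ⊢
  rw [this, e2]
  ring

/-- the core inequality -/
theorem core {A θ : ℝ} {W : ℝ → ℝ} (hA : 1 < A) (hW : CutW A W) (hm : Monotone W) (a : ℕ → ℝ)
    (ha0 : a 0 = 0) (hb : bdW a θ W) :
    ∃ p c K : ℝ, 1 ≤ p ∧ 0 < c ∧ 0 < K ∧ ∀ X s : ℝ, 1 ≤ X → (s = 1 ∨ s = -1) →
      ∫ y in (p * X)..(p * X + c * (p * X)), |SS a y| ≤
        K * ((∫ y in X..(A * X), max (s * SS a y) 0) + X ^ (1 + θ)) := by
  obtain ⟨C1, hC1⟩ := hb
  have hC0 : 0 ≤ C1 := by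
    have := (abs_nonneg _).trans (hC1 1 le_rfl)
    simpa using this
  have hWd : Differentiable ℝ W := hW.1.differentiable (by simp)
  have hdc : Continuous (deriv W) := hW.1.continuous_deriv (by simp)
  have hnn : ∀ y, 0 ≤ deriv W y := fun y => hm.deriv_nonneg
  -- a point where the derivative is positive
  obtain ⟨ξ, hξ, hξ1⟩ := exists_deriv_eq_slope W hA hWd.continuous.continuousOn hWd.differentiableOn
  rw [hW.2.2 A le_rfl, hW.2.1 1 le_rfl, sub_zero] at hξ1
  have hξ0 : 0 < deriv W ξ := by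
    rw [hξ1]
    exact div_pos one_pos (by linarith)
  set c0 : ℝ := deriv W ξ / 2 with hc0
  have hc00 : 0 < c0 := by positivity
  have hnb : ∀ᶠ y in 𝓝 ξ, c0 ≤ deriv W y := by
    have : ∀ᶠ y in 𝓝 ξ, c0 < deriv W y := hdc.continuousAt.eventually_const_lt (by rw [hc0]; linarith)
    exact this.mono fun y hy => hy.le
  obtain ⟨r, hr, hr1⟩ := Metric.eventually_nhds_iff_ball.1 (hnb.and (Ioo_mem_nhds hξ.1 hξ.2))
  set u : ℝ := ξ with hu
  set v : ℝ := ξ + r / 2 with hv
  have huv : u < v := by rw [hv]; linarith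
  have hmem : ∀ y ∈ Icc u v, c0 ≤ deriv W y ∧ y ∈ Ioo 1 A := by
    intro y hy
    refine hr1 y ?_
    rw [Metric.mem_ball, Real.dist_eq, abs_lt]
    constructor <;> linarith [hy.1, hy.2]
  have hu1 : 1 < u := (hmem u ⟨le_rfl, huv.le⟩).2.1
  have hvA : v < A := (hmem v ⟨huv.le, le_rfl⟩).2.2
  have hv0 : 0 < v := by linarith
  have hu0 : 0 < u := by linarith
  have hA0 : 0 < A := by linarith
  -- bound for the derivative
  obtain ⟨B, hB⟩ := isCompact_Icc.exists_bound_of_continuousOn (s := Icc 1 A) hdc.continuousOn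
  have hB0 : 0 ≤ B := (norm_nonneg _).trans (hB 1 ⟨le_rfl, hA.le⟩)
  refine ⟨A / v, v / u - 1, 2 * A ^ 2 * B / c0 + C1 * A ^ (1 + θ) / c0 + 1, ?_, ?_, by positivity, ?_⟩
  · rw [le_div_iff₀ hv0]; linarith
  · rw [sub_pos, lt_div_iff₀ hu0]; linarith
  intro X s hX hs
  have hX0 : 0 < X := by linarith
  set x : ℝ := A * X with hx
  have hx0 : 0 < x := by positivity
  have hXx : X ≤ x := by rw [hx]; nlinarith
  have hx1 : 1 ≤ x := by linarith
  have hxA : x / A = X := by rw [hx]; field_simp
  have e1 : A / v * X = x / v := by rw [hx]; ring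
  have e2 : A / v * X + (v / u - 1) * (A / v * X) = x / u := by
    rw [hx]; field_simp; ring
  rw [e1] at *
  have e2' : x / v + (v / u - 1) * (x / v) = x / u := by
    field_simp; ring
  rw [e2']
  have hvu : x / v ≤ x / u := div_le_div_of_nonneg_left hx0.le hu0 huv.le
  set k : ℝ → ℝ := fun t => x / t ^ 2 * deriv W (x / t) with hk
  have hkc : ContinuousOn k (Icc 1 x) := by
    have h0 : ∀ t ∈ Icc (1:ℝ) x, t ≠ 0 := fun t ht => by linarith [ht.1]
    refine ContinuousOn.mul ?_ ?_
    · exact continuousOn_const.div (continuousOn_id.pow 2) fun t ht => pow_ne_zero 2 (h0 t ht)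
    · exact hdc.comp_continuousOn (continuousOn_const.div continuousOn_id h0)
  have hk0 : ∀ t ∈ Ioc (1:ℝ) x, 0 ≤ k t := fun t ht => by
    have := hnn (x / t)
    have h2 : 0 < t := by linarith [ht.1]
    positivity
  have hab := abel hW a ha0 hx1
  have hbd := hC1 x hx1
  rw [hab] at hbd
  -- the three integrals
  have i1 : IntegrableOn (fun t => k t * |SS a t|) (Ioc 1 x) :=
    int_mul a (fun y => |y|) measurable_norm (fun y => (abs_abs y).le) k hkc
  have i2 : IntegrableOn (fun t => k t * SS a t) (Ioc 1 x) :=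
    int_mul a (fun y => y) measurable_id (fun y => le_rfl) k hkc
  have hs1 : |s| = 1 := by rcases hs with rfl | rfl <;> simp
  have i3 : IntegrableOn (fun t => k t * max (s * SS a t) 0) (Ioc 1 x) :=
    int_mul a (fun y => max (s * y) 0) ((measurable_id.const_mul s).max measurable_const)
      (fun y => by
        rw [abs_of_nonneg (le_max_right _ _)]
        refine max_le ?_ (abs_nonneg _)
        calc s * y ≤ |s * y| := le_abs_self _
          _ = |y| := by rw [abs_mul, hs1, one_mul]) k hkc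
  have j3 : IntegrableOn (fun t => max (s * SS a t) 0) (Ioc X x) := by
    have := int_mul a (fun y => max (s * y) 0) ((measurable_id.const_mul s).max measurable_const)
      (fun y => by
        rw [abs_of_nonneg (le_max_right _ _)]
        refine max_le ?_ (abs_nonneg _)
        calc s * y ≤ |s * y| := le_abs_self _
          _ = |y| := by rw [abs_mul, hs1, one_mul]) (fun _ => 1) (p := X) (x := x) continuousOn_const
    simpa using this
  have hid : ∀ t, k t * |SS a t| = 2 * (k t * max (s * SS a t) 0) - s * (k t * SS a t) := by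
    intro t
    have : |SS a t| = 2 * max (s * SS a t) 0 - s * SS a t := by
      rcases hs with rfl | rfl
      · rw [one_mul]
        rcases le_total 0 (SS a t) with h | h
        · rw [abs_of_nonneg h, max_eq_left h]; ring
        · rw [abs_of_nonpos h, max_eq_right h]; ring
      · rcases le_total 0 (SS a t) with h | h
        · rw [abs_of_nonneg h, max_eq_right (by linarith)]; ring
        · rw [abs_of_nonpos h, max_eq_left (by linarith)]; ring
    rw [this]; ring
  have hI : ∫ t in Ioc 1 x, k t * |SS a t| ≤ 2 * (∫ t in Ioc 1 x, k t * max (s * SS a t) 0) + C1 * x ^ θ := by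
    simp_rw [hid]
    rw [integral_sub (i3.const_mul 2) (i2.const_mul s), integral_const_mul, integral_const_mul]
    have h5 : -(s * ∫ t in Ioc 1 x, k t * SS a t) ≤ C1 * x ^ θ := by
      refine (neg_le_abs _).trans ?_
      rw [abs_mul, hs1, one_mul]
      exact hbd
    linarith
  have hJ : ∫ t in Ioc 1 x, k t * max (s * SS a t) 0 ≤ (A ^ 2 * B / x) * ∫ t in Ioc X x, max (s * SS a t) 0 := by
    rw [← integral_const_mul]
    have h6 : ∫ t in Ioc 1 x, k t * max (s * SS a t) 0 = ∫ t in Ioc X x, k t * max (s * SS a t) 0 := by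
      have hun : Ioc (1:ℝ) x = Ioc 1 X ∪ Ioc X x := (Ioc_union_Ioc_eq_Ioc hX hXx).symm
      rw [hun, setIntegral_union (Ioc_disjoint_Ioc_of_le le_rfl) measurableSet_Ioc
        (i3.mono_set (by rw [hun]; exact subset_union_left))
        (i3.mono_set (by rw [hun]; exact subset_union_right))]
      rw [setIntegral_eq_zero_of_forall_eq_zero, zero_add]
      intro t ht
      have ht0 : 0 < t := by linarith [ht.1]
      have : A ≤ x / t := by
        rw [le_div_iff₀ ht0, hx]
        exact mul_le_mul_of_nonneg_left ht.2 hA0.le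
      simp only [hk]
      rw [deriv_zero_of_ge hW this, mul_zero, zero_mul]
    rw [h6]
    refine setIntegral_mono_on (i3.mono_set (Ioc_subset_Ioc_left hX)) (j3.const_mul _) measurableSet_Ioc ?_
    intro t ht
    have ht0 : 0 < t := by linarith [ht.1]
    refine mul_le_mul_of_nonneg_right ?_ (le_max_right _ _)
    have hy : x / t ∈ Icc 1 A := by
      constructor
      · rw [le_div_iff₀ ht0, one_mul]; exact ht.2
      · rw [div_le_iff₀ ht0, hx]
        exact mul_le_mul_of_nonneg_left ht.1.le hA0.le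
    have h7 : deriv W (x / t) ≤ B := (le_abs_self _).trans (hB _ hy)
    have h8 : x / t ^ 2 ≤ A ^ 2 / x := by
      rw [div_le_div_iff₀ (by positivity) hx0]
      have : x ≤ A * t := by rw [hx]; exact mul_le_mul_of_nonneg_left ht.1.le hA0.le
      nlinarith
    calc k t = x / t ^ 2 * deriv W (x / t) := rfl
      _ ≤ A ^ 2 / x * B := mul_le_mul h8 h7 (hnn _) (by positivity)
      _ = A ^ 2 * B / x := by ring
  have hL : c0 / x * (∫ t in Ioc (x / v) (x / u), |SS a t|) ≤ ∫ t in Ioc 1 x, k t * |SS a t| := by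
    rw [← integral_const_mul]
    have hsub : Ioc (x / v) (x / u) ⊆ Ioc 1 x := by
      refine Ioc_subset_Ioc ?_ ?_
      · rw [le_div_iff₀ hv0, one_mul, hx]; nlinarith
      · rw [div_le_iff₀ hu0]; nlinarith
    have i4 : IntegrableOn (fun t => |SS a t|) (Ioc 1 x) := by
      have := int_mul a (fun y => |y|) measurable_norm (fun y => (abs_abs y).le) (fun _ => 1)
        (p := 1) (x := x) continuousOn_const
      simpa using this
    refine (setIntegral_mono_on ((i4.mono_set hsub).const_mul _) (i1.mono_set hsub) measurableSet_Ioc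
      (fun t ht => ?_)).trans ?_
    · have ht1 := hsub ht
      have ht0 : 0 < t := by linarith [ht1.1]
      refine mul_le_mul_of_nonneg_right ?_ (abs_nonneg _)
      have hy : x / t ∈ Icc u v := by
        constructor
        · rw [le_div_iff₀ ht0]
          have := (le_div_iff₀ hu0).1 ht.2
          linarith
        · rw [div_le_iff₀ ht0]
          have := (div_lt_iff₀ hv0).1 ht.1
          linarith
      have h7 := (hmem _ hy).1
      have h8 : 1 / x ≤ x / t ^ 2 := by
        rw [div_le_div_iff₀ hx0 (by positivity)]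
        nlinarith [ht1.2]
      calc c0 / x = 1 / x * c0 := by ring
        _ ≤ x / t ^ 2 * deriv W (x / t) := mul_le_mul h8 h7 hc00.le (by positivity)
    · refine setIntegral_mono_set i1 ?_ hsub.eventuallyLE
      filter_upwards [ae_restrict_mem measurableSet_Ioc] with t ht
      exact mul_nonneg (hk0 t ht) (abs_nonneg _)
  rw [intervalIntegral.integral_of_le hvu, intervalIntegral.integral_of_le hXx]
  have hP : 0 ≤ ∫ t in Ioc X x, max (s * SS a t) 0 :=
    setIntegral_nonneg measurableSet_Ioc fun t _ => le_max_right _ _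
  have hXθ : 0 ≤ X ^ (1 + θ) := Real.rpow_nonneg hX0.le _
  have hfin := hL.trans (hI.trans (add_le_add_left (mul_le_mul_of_nonneg_left hJ (by norm_num : (0:ℝ) ≤ 2)) _))
  have hxθ : x ^ θ * x = A ^ (1 + θ) * X ^ (1 + θ) := by
    rw [← Real.rpow_add_one hx0.ne', hx, add_comm θ 1, Real.mul_rpow hA0.le hX0.le]
  set P : ℝ := ∫ t in Ioc X x, max (s * SS a t) 0 with hPdef
  set Q : ℝ := ∫ t in Ioc (x / v) (x / u), |SS a t| with hQdef
  have h9 : Q ≤ 2 * A ^ 2 * B / c0 * P + C1 * (x ^ θ * x) / c0 := by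
    have h10 : c0 * Q ≤ 2 * (A ^ 2 * B) * P + C1 * (x ^ θ * x) := by
      have h11 : x * (c0 / x * Q) ≤ x * (2 * (A ^ 2 * B / x * P) + C1 * x ^ θ) :=
        mul_le_mul_of_nonneg_left (by linarith) hx0.le
      have e5 : x * (c0 / x * Q) = c0 * Q := by field_simp
      have e6 : x * (2 * (A ^ 2 * B / x * P) + C1 * x ^ θ) = 2 * (A ^ 2 * B) * P + C1 * (x ^ θ * x) := by
        field_simp
      rw [e5, e6] at h11
      exact h11
    have h12 : Q ≤ (2 * (A ^ 2 * B) * P + C1 * (x ^ θ * x)) / c0 := by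
      rw [le_div_iff₀ hc00]; linarith
    refine h12.trans (le_of_eq ?_)
    ring
  rw [hxθ] at h9
  have h13 : 0 ≤ 2 * A ^ 2 * B / c0 := by positivity
  have h14 : 0 ≤ C1 * A ^ (1 + θ) / c0 := by positivity
  have e7 : C1 * (A ^ (1 + θ) * X ^ (1 + θ)) / c0 = C1 * A ^ (1 + θ) / c0 * X ^ (1 + θ) := by ring
  rw [e7] at h9
  nlinarith [mul_nonneg h13 hXθ, mul_nonneg h14 hP]

end

end Pool.Agent.Y853
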