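import Pool.Agent.Y853.OneSided

/-!
# One-sided cancellation in short intervals on average on one block

`S(y) = ∑_{n ≤ y} a n`, `|a n| ≤ 1`.  If for some `H ≤ X^θ` the mean of the positive part of
`S(y + H) - S(y)` over `[X, C X]` is at most `H X^θ / X`, then the mean of `|S|` over a fixed sub-block is
`O(X^θ)`.
-/

set_option autoImplicit false

open Filter Topology MeasureTheory Set
open scoped ContDiff
open H353 (CutW bdW)

namespace Pool.Agent.Y853

noncomputable section

/-- the positive part of the increment -/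
def DD (a : ℕ → ℝ) (s y d : ℝ) : ℝ := max (s * (SS a (y + d) - SS a y)) 0

theorem DD_nonneg (a : ℕ → ℝ) (s y d : ℝ) : 0 ≤ DD a s y d := le_max_right _ _

theorem DD_meas (a : ℕ → ℝ) (s : ℝ) {α : Type} [MeasurableSpace α] {f g : α → ℝ} (hf : Measurable f)
    (hg : Measurable g) : Measurable (fun p : α => DD a s (f p) (g p)) := by
  unfold DD
  have h := SS_meas a
  have h1 : Measurable fun p : α => SS a (f p + g p) := h.comp (hf.add hg)
  have h2 : Measurable fun p : α => SS a (f p) := h.comp hf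
  exact ((h1.sub h2).const_mul s).max measurable_const

theorem SS_incr {a : ℕ → ℝ} (ha : ∀ n, |a n| ≤ 1) {y r : ℝ} (hr : 0 ≤ r) (hy : 0 ≤ y) :
    |SS a (y + r) - SS a y| ≤ r + 1 := by
  have hle : ⌊y⌋₊ ≤ ⌊y + r⌋₊ := Nat.floor_mono (by linarith)
  have e : SS a (y + r) - SS a y = ∑ n ∈ Finset.Icc (⌊y⌋₊ + 1) ⌊y + r⌋₊, a n := by
    unfold SS
    rw [sub_eq_iff_eq_add, add_comm (∑ n ∈ Finset.Icc (⌊y⌋₊ + 1) ⌊y + r⌋₊, a n)]
    have : Finset.Icc 1 ⌊y + r⌋₊ = Finset.Icc 1 ⌊y⌋₊ ∪ Finset.Icc (⌊y⌋₊ + 1) ⌊y + r⌋₊ := by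
      ext n
      simp only [Finset.mem_union, Finset.mem_Icc]
      omega
    rw [this, Finset.sum_union]
    rw [Finset.disjoint_left]
    intro n hn hn'
    rw [Finset.mem_Icc] at hn hn'
    omega
  rw [e]
  refine (Finset.abs_sum_le_sum_abs _ _).trans ?_
  calc ∑ n ∈ Finset.Icc (⌊y⌋₊ + 1) ⌊y + r⌋₊, |a n| ≤ ∑ _n ∈ Finset.Icc (⌊y⌋₊ + 1) ⌊y + r⌋₊, (1:ℝ) :=
        Finset.sum_le_sum fun n _ => ha n
    _ = ((⌊y + r⌋₊ + 1 - (⌊y⌋₊ + 1) : ℕ) : ℝ) := by simp
    _ = (⌊y + r⌋₊ : ℝ) - ⌊y⌋₊ := by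
        rw [show ⌊y + r⌋₊ + 1 - (⌊y⌋₊ + 1) = ⌊y + r⌋₊ - ⌊y⌋₊ by omega, Nat.cast_sub hle]
    _ ≤ r + 1 := by
        have h1 := Nat.floor_le (show 0 ≤ y + r by linarith)
        have h2 := Nat.lt_floor_add_one y
        linarith

theorem pos_add (u v : ℝ) : max (u + v) 0 ≤ max u 0 + max v 0 := by
  refine max_le ?_ (add_nonneg (le_max_right _ _) (le_max_right _ _))
  exact add_le_add (le_max_left _ _) (le_max_left _ _)

theorem DD_add (a : ℕ → ℝ) (s y d e : ℝ) : DD a s y (d + e) ≤ DD a s y d + DD a s (y + d) e := by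
  unfold DD
  have : s * (SS a (y + (d + e)) - SS a y) =
      s * (SS a (y + d) - SS a y) + s * (SS a (y + d + e) - SS a (y + d)) := by
    rw [← add_assoc]; ring
  rw [this]
  exact pos_add _ _

theorem DD_nsmul (a : ℕ → ℝ) (s y H : ℝ) (n : ℕ) :
    DD a s y (n * H) ≤ ∑ j ∈ Finset.range n, DD a s (y + j * H) H := by
  induction n with
  | zero => simp [DD]
  | succ n ih =>
    rw [Finset.sum_range_succ]
    have := DD_add a s y (n * H) H
    have e : ((n + 1 : ℕ) : ℝ) * H = n * H + H := by push_cast; ring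
    rw [e]
    linarith

theorem DD_le {a : ℕ → ℝ} (ha : ∀ n, |a n| ≤ 1) {s y d : ℝ} (hs : |s| = 1) (hd : 0 ≤ d) (hy : 0 ≤ y) :
    DD a s y d ≤ d + 1 := by
  unfold DD
  refine max_le ?_ (by linarith)
  refine (le_abs_self _).trans ?_
  rw [abs_mul, hs, one_mul]
  exact SS_incr ha hd hy

theorem bdd_int {g : ℝ → ℝ} (hg : Measurable g) {C p q : ℝ} (h : ∀ t ∈ Ioc p q, |g t| ≤ C) :
    IntegrableOn g (Ioc p q) := by
  refine Measure.integrableOn_of_bounded (M := C) (by simp) hg.aestronglyMeasurable ?_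
  filter_upwards [ae_restrict_mem measurableSet_Ioc] with t ht
  exact h t ht

theorem DD_int {a : ℕ → ℝ} (ha : ∀ n, |a n| ≤ 1) {s d p q : ℝ} (hs : |s| = 1) (hd : 0 ≤ d) (hp : 0 ≤ p) :
    IntegrableOn (fun y => DD a s y d) (Ioc p q) := by
  have hm : Measurable (fun y => DD a s y d) := DD_meas a s measurable_id measurable_const
  refine bdd_int hm (C := d + 1) fun t ht => ?_
  rw [abs_of_nonneg (DD_nonneg _ _ _ _)]
  exact DD_le ha hs hd (by linarith [ht.1])

theorem DD_shift {a : ℕ → ℝ} (ha : ∀ n, |a n| ≤ 1) {s H p q P Q t : ℝ} (hs : |s| = 1) (hH : 0 ≤ H) (hP : 0 ≤ P)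
    (h1 : P ≤ p + t) (h2 : q + t ≤ Q) :
    ∫ y in Ioc p q, DD a s (y + t) H ≤ ∫ y in Ioc P Q, DD a s y H := by
  have e : ∫ y in Ioc p q, DD a s (y + t) H = ∫ y in Ioc (p + t) (q + t), DD a s y H := by
    have hpre : (fun y : ℝ => y + t) ⁻¹' (Ioc (p + t) (q + t)) = Ioc p q := by
      ext y; simp
    have := (measurePreserving_add_right (volume : Measure ℝ) t).setIntegral_preimage_emb
      (MeasurableEquiv.addRight t).measurableEmbedding (fun y => DD a s y H) (Ioc (p + t) (q + t))
    rw [hpre] at this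
    exact this
  rw [e]
  refine setIntegral_mono_set (DD_int ha hs hH hP) ?_ (Ioc_subset_Ioc h1 h2).eventuallyLE
  exact ae_of_all _ fun y => DD_nonneg _ _ _ _

/-- all shifts are controlled by one short shift -/
theorem claim1 {a : ℕ → ℝ} (ha : ∀ n, |a n| ≤ 1) {A X H s I d : ℝ} (hA : 1 < A) (hX : 1 ≤ X) (hH : 1 ≤ H)
    (hs : |s| = 1) (hI : ∫ y in Ioc X (A ^ 3 * X), DD a s y H ≤ H * I) (hI0 : 0 ≤ I) (hd : 0 ≤ d)
    (hd2 : d ≤ (A ^ 2 - 1) * X) :
    ∫ y in Ioc X (A * X), DD a s y d ≤ (A ^ 2 - 1) * X * I + (A - 1) * X * (2 * H) := by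
  have hH0 : 0 < H := by linarith
  have hX0 : 0 < X := by linarith
  set n : ℕ := ⌊d / H⌋₊ with hn
  have hn1 : (n : ℝ) * H ≤ d := by
    have := Nat.floor_le (div_nonneg hd hH0.le)
    rwa [le_div_iff₀ hH0] at this
  have hn2 : d < (n + 1) * H := by
    have := Nat.lt_floor_add_one (d / H)
    rwa [div_lt_iff₀ hH0] at this
  have hAA : A * X + (A ^ 2 - 1) * X ≤ A ^ 3 * X := by
    have : 0 ≤ (A - 1) ^ 2 * (A + 1) := by
      have : 0 ≤ A + 1 := by linarith
      positivity
    nlinarith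
  have hpt : ∀ y ∈ Ioc X (A * X), DD a s y d ≤ ∑ j ∈ Finset.range n, DD a s (y + j * H) H + 2 * H := by
    intro y hy
    have hy0 : 0 ≤ y := by linarith [hy.1]
    have h1 := DD_add a s y (n * H) (d - n * H)
    have h2 := DD_nsmul a s y H n
    have h3 : DD a s (y + n * H) (d - n * H) ≤ (d - n * H) + 1 :=
      DD_le ha hs (by linarith) (by positivity)
    rw [add_sub_cancel] at h1
    nlinarith
  have i1 : IntegrableOn (fun y => DD a s y d) (Ioc X (A * X)) := DD_int ha hs hd hX0.le
  have i2 : ∀ j : ℕ, IntegrableOn (fun y => DD a s (y + j * H) H) (Ioc X (A * X)) := by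
    intro j
    have hm : Measurable (fun y => DD a s (y + j * H) H) :=
      DD_meas a s (measurable_id.add_const _) measurable_const
    refine bdd_int hm (C := H + 1) fun t ht => ?_
    rw [abs_of_nonneg (DD_nonneg _ _ _ _)]
    have h5 : 0 ≤ (j:ℝ) * H := by positivity
    exact DD_le ha hs hH0.le (by linarith [ht.1])
  have i3 : IntegrableOn (fun y => ∑ j ∈ Finset.range n, DD a s (y + j * H) H) (Ioc X (A * X)) :=
    integrable_finsetSum _ fun j _ => i2 j
  have i4 : IntegrableOn (fun _ : ℝ => 2 * H) (Ioc X (A * X)) := integrableOn_const (by simp)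
  have hAX : X ≤ A * X := by nlinarith
  calc ∫ y in Ioc X (A * X), DD a s y d
      ≤ ∫ y in Ioc X (A * X), (∑ j ∈ Finset.range n, DD a s (y + j * H) H + 2 * H) :=
        setIntegral_mono_on i1 (i3.add i4) measurableSet_Ioc hpt
    _ = ∑ j ∈ Finset.range n, (∫ y in Ioc X (A * X), DD a s (y + j * H) H) + (A - 1) * X * (2 * H) := by
        rw [integral_add i3 i4, integral_finsetSum _ fun j _ => i2 j]
        congr 1
        rw [setIntegral_const, smul_eq_mul, Measure.real, Real.volume_Ioc,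
          ENNReal.toReal_ofReal (by linarith)]
        ring
    _ ≤ ∑ _j ∈ Finset.range n, H * I + (A - 1) * X * (2 * H) := by
        gcongr with j hj
        refine (DD_shift ha hs hH0.le hX0.le (P := X) (Q := A ^ 3 * X) ?_ ?_).trans hI
        · have : 0 ≤ (j:ℝ) * H := by positivity
          linarith
        · rw [Finset.mem_range] at hj
          have hj1 : (j:ℝ) ≤ n := by exact_mod_cast hj.le
          have : (j:ℝ) * H ≤ n * H := mul_le_mul_of_nonneg_right hj1 hH0.le
          linarith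
    _ = (n * H) * I + (A - 1) * X * (2 * H) := by
        rw [Finset.sum_const, Finset.card_range, nsmul_eq_mul]
        ring
    _ ≤ (A ^ 2 - 1) * X * I + (A - 1) * X * (2 * H) := by
        have h5 : (n * H) * I ≤ (A ^ 2 - 1) * X * I := mul_le_mul_of_nonneg_right (hn1.trans hd2) hI0
        linarith

/-- the positive part on the next block is controlled by the increments -/
theorem claim2 {A θ : ℝ} {W : ℝ → ℝ} (hA : 1 < A) (hW : CutW A W) (hm : Monotone W) {a : ℕ → ℝ}
    (ha0 : a 0 = 0) (ha : ∀ n, |a n| ≤ 1) (hb : bdW a θ W) :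
    ∃ K : ℝ, 0 < K ∧ ∀ X s J : ℝ, 1 ≤ X → (s = 1 ∨ s = -1) → 0 ≤ J →
      (∀ d, 0 ≤ d → d ≤ (A ^ 2 - 1) * X → ∫ y in Ioc X (A * X), DD a s y d ≤ J) →
      ∫ y in Ioc (A * X) (A ^ 2 * X), max (s * SS a y) 0 ≤ K * (J + X ^ (1 + θ)) := by
  obtain ⟨C1, hC1⟩ := hb
  have hC0 : 0 ≤ C1 := by
    have := (abs_nonneg _).trans (hC1 1 le_rfl)
    simpa using this
  have hWd : Differentiable ℝ W := hW.1.differentiable (by simp)
  have hdc : Continuous (deriv W) := hW.1.continuous_deriv (by simp)
  have hnn : ∀ y, 0 ≤ deriv W y := fun y => hm.deriv_nonneg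
  have hA0 : 0 < A := by linarith
  obtain ⟨B, hB⟩ := isCompact_Icc.exists_bound_of_continuousOn (s := Icc 1 A) hdc.continuousOn
  have hB0 : 0 ≤ B := (norm_nonneg _).trans (hB 1 ⟨le_rfl, hA.le⟩)
  have hA21 : 0 < A ^ 2 - 1 := by nlinarith
  refine ⟨A * B * (A ^ 2 - 1) + C1 * A ^ θ * (A ^ 2 - A) + 1, by
    have : 0 ≤ A ^ 2 - A := by nlinarith
    positivity, ?_⟩
  intro X s J hX hs hJ0 hJ
  have hs1 : |s| = 1 := by rcases hs with rfl | rfl <;> simp
  have hX0 : 0 < X := by linarith
  set x : ℝ := A * X with hx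
  have hx0 : 0 < x := by positivity
  have hXx : X ≤ x := by rw [hx]; nlinarith
  have hx1 : 1 ≤ x := by linarith
  have hxx : x ≤ A ^ 2 * X := by rw [hx]; nlinarith [mul_pos hA0 hX0]
  set k : ℝ → ℝ := fun t => x / t ^ 2 * deriv W (x / t) with hk
  have hkc : ContinuousOn k (Icc 1 x) := by
    have h0 : ∀ t ∈ Icc (1:ℝ) x, t ≠ 0 := fun t ht => by linarith [ht.1]
    refine ContinuousOn.mul ?_ ?_
    · exact continuousOn_const.div (continuousOn_id.pow 2) fun t ht => pow_ne_zero 2 (h0 t ht)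
    · exact hdc.comp_continuousOn (continuousOn_const.div continuousOn_id h0)
  have hkz : ∀ t ∈ Ioc (1:ℝ) X, k t = 0 := by
    intro t ht
    have ht0 : 0 < t := by linarith [ht.1]
    have : A ≤ x / t := by
      rw [le_div_iff₀ ht0, hx]
      exact mul_le_mul_of_nonneg_left ht.2 hA0.le
    simp only [hk]
    rw [deriv_zero_of_ge hW this, mul_zero]
  have hun : Ioc (1:ℝ) x = Ioc 1 X ∪ Ioc X x := (Ioc_union_Ioc_eq_Ioc hX hXx).symm
  have hdisj : Disjoint (Ioc (1:ℝ) X) (Ioc X x) := Ioc_disjoint_Ioc_of_le le_rfl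
  have hrestr : ∀ g : ℝ → ℝ, IntegrableOn (fun t => k t * g t) (Ioc 1 x) →
      ∫ t in Ioc 1 x, k t * g t = ∫ t in Ioc X x, k t * g t := by
    intro g hg
    rw [hun, setIntegral_union hdisj measurableSet_Ioc
      (hg.mono_set (by rw [hun]; exact subset_union_left))
      (hg.mono_set (by rw [hun]; exact subset_union_right))]
    rw [setIntegral_eq_zero_of_forall_eq_zero, zero_add]
    intro t ht
    rw [hkz t ht, zero_mul]
  -- total mass one
  have hmass : ∫ t in Ioc X x, k t = 1 := by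
    have hder : ∀ t ∈ uIcc X x, HasDerivAt (fun t : ℝ => -W (x / t)) (k t) t := by
      intro t ht
      rw [uIcc_of_le hXx] at ht
      have ht0 : t ≠ 0 := by linarith [ht.1]
      have h1 : HasDerivAt (fun t : ℝ => x / t) (-(x / t ^ 2)) t := by
        have := (hasDerivAt_const t x).div (hasDerivAt_id t) ht0
        refine this.congr_deriv ?_
        simp only [id_eq]
        ring
      refine ((hWd (x / t)).hasDerivAt.comp t h1).neg.congr_deriv ?_
      simp only [hk]
      ring
    have h1 := intervalIntegral.integral_eq_sub_of_hasDerivAt hder (by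
      refine ContinuousOn.intervalIntegrable ?_
      rw [uIcc_of_le hXx]
      exact hkc.mono (Icc_subset_Icc_left hX))
    rw [intervalIntegral.integral_of_le hXx] at h1
    rw [h1, div_self hx0.ne', hW.2.1 1 le_rfl]
    have : x / X = A := by rw [hx]; field_simp
    rw [this, hW.2.2 A le_rfl]
    ring
  have i2 : IntegrableOn (fun t => k t * SS a t) (Ioc 1 x) :=
    int_mul a (fun y => y) measurable_id (fun y => le_rfl) k hkc
  have hmean : |∫ t in Ioc X x, k t * SS a t| ≤ C1 * x ^ θ := by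
    have := hC1 x hx1
    rw [abel hW a ha0 hx1] at this
    rw [← hrestr (fun t => SS a t) i2]
    exact this
  have hk0 : ∀ t ∈ Ioc X x, 0 ≤ k t ∧ k t ≤ A * B / X := by
    intro t ht
    have ht0 : 0 < t := by linarith [ht.1]
    have hy : x / t ∈ Icc 1 A := by
      constructor
      · rw [le_div_iff₀ ht0, one_mul]; exact ht.2
      · rw [div_le_iff₀ ht0, hx]
        exact mul_le_mul_of_nonneg_left ht.1.le hA0.le
    have h7 : deriv W (x / t) ≤ B := (le_abs_self _).trans (hB _ hy)
    have h8 : x / t ^ 2 ≤ A / X := by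
      rw [div_le_div_iff₀ (by positivity) hX0, hx]
      nlinarith [ht.1, mul_pos hA0 hX0, mul_self_le_mul_self hX0.le ht.1.le]
    have h9 := hnn (x / t)
    refine ⟨by positivity, ?_⟩
    calc k t = x / t ^ 2 * deriv W (x / t) := rfl
      _ ≤ A / X * B := mul_le_mul h8 h7 h9 (by positivity)
      _ = A * B / X := by ring
  have ik : IntegrableOn k (Ioc X x) :=
    ((hkc.mono (Icc_subset_Icc_left hX)).integrableOn_compact isCompact_Icc).mono_set Ioc_subset_Icc_self
  have ikD : ∀ z : ℝ, x ≤ z → IntegrableOn (fun y => k y * DD a s y (z - y)) (Ioc X x) := by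
    intro z hz
    have hmz : Measurable (fun y => DD a s y (z - y)) :=
      DD_meas a s measurable_id (measurable_const.sub measurable_id)
    refine Integrable.mul_bdd (c := z + 1) ik hmz.aestronglyMeasurable ?_
    filter_upwards [ae_restrict_mem measurableSet_Ioc] with t ht
    rw [Real.norm_eq_abs, abs_of_nonneg (DD_nonneg _ _ _ _)]
    refine (DD_le ha hs1 (by linarith [ht.2]) (by linarith [ht.1])).trans ?_
    linarith [ht.1]
  have ikS : IntegrableOn (fun t => k t * SS a t) (Ioc X x) := i2.mono_set (Ioc_subset_Ioc_left hX)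
  -- pointwise bound
  have hpt : ∀ z ∈ Ioc x (A ^ 2 * X), max (s * SS a z) 0 ≤
      A * B / X * (∫ y in Ioc X x, DD a s y (z - y)) + C1 * x ^ θ := by
    intro z hz
    have hxz : x ≤ z := hz.1.le
    have h1 : s * SS a z = (∫ y in Ioc X x, k y * (s * (SS a z - SS a y))) + s * ∫ y in Ioc X x, k y * SS a y := by
      have e1 : ∀ y, k y * (s * (SS a z - SS a y)) = s * SS a z * k y - s * (k y * SS a y) := fun y => by ring
      simp_rw [e1]
      rw [integral_sub (ik.const_mul _) (ikS.const_mul s), integral_const_mul, integral_const_mul, hmass]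
      ring
    have i5 : IntegrableOn (fun y => k y * (s * (SS a z - SS a y))) (Ioc X x) := by
      have e1 : (fun y => k y * (s * (SS a z - SS a y))) = fun y => s * SS a z * k y - s * (k y * SS a y) := by
        funext y; ring
      rw [e1]
      exact (ik.const_mul _).sub (ikS.const_mul s)
    have i6 : IntegrableOn (fun y => DD a s y (z - y)) (Ioc X x) := by
      have hmz : Measurable (fun y => DD a s y (z - y)) :=
        DD_meas a s measurable_id (measurable_const.sub measurable_id)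
      refine bdd_int hmz (C := z + 1) fun t ht => ?_
      rw [abs_of_nonneg (DD_nonneg _ _ _ _)]
      refine (DD_le ha hs1 (by linarith [ht.2]) (by linarith [ht.1])).trans ?_
      linarith [ht.1]
    have h2 : (∫ y in Ioc X x, k y * (s * (SS a z - SS a y))) ≤ ∫ y in Ioc X x, k y * DD a s y (z - y) := by
      refine setIntegral_mono_on i5 (ikD z hxz) measurableSet_Ioc fun y hy => ?_
      refine mul_le_mul_of_nonneg_left ?_ (hk0 y hy).1
      unfold DD
      rw [add_sub_cancel]
      exact le_max_left _ _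
    have h3 : ∫ y in Ioc X x, k y * DD a s y (z - y) ≤ A * B / X * ∫ y in Ioc X x, DD a s y (z - y) := by
      rw [← integral_const_mul]
      refine setIntegral_mono_on (ikD z hxz) (i6.const_mul _) measurableSet_Ioc fun y hy => ?_
      exact mul_le_mul_of_nonneg_right (hk0 y hy).2 (DD_nonneg _ _ _ _)
    have h4 : s * ∫ y in Ioc X x, k y * SS a y ≤ C1 * x ^ θ := by
      refine (le_abs_self _).trans ?_
      rw [abs_mul, hs1, one_mul]
      exact hmean
    have h5 : 0 ≤ ∫ y in Ioc X x, DD a s y (z - y) :=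
      setIntegral_nonneg measurableSet_Ioc fun y _ => DD_nonneg _ _ _ _
    have h6 : 0 ≤ C1 * x ^ θ := by positivity
    refine max_le ?_ (by positivity)
    rw [h1]
    linarith
  -- integrate in z
  set μ1 : Measure ℝ := volume.restrict (Ioc X x) with hμ1
  set μ2 : Measure ℝ := volume.restrict (Ioc x (A ^ 2 * X)) with hμ2
  set μ3 : Measure ℝ := volume.restrict (Ioc 0 ((A ^ 2 - 1) * X)) with hμ3
  have j1 : Integrable (Function.uncurry fun z y : ℝ => DD a s y (z - y)) (μ2.prod μ1) := by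
    have hmz : Measurable (Function.uncurry fun z y : ℝ => DD a s y (z - y)) :=
      DD_meas a s measurable_snd (measurable_fst.sub measurable_snd)
    refine Integrable.mono' (g := fun _ => A ^ 2 * X + 1) (integrable_const _) hmz.aestronglyMeasurable ?_
    rw [hμ1, hμ2, Measure.prod_restrict]
    filter_upwards [ae_restrict_mem (measurableSet_Ioc.prod measurableSet_Ioc)] with p hp
    obtain ⟨hp1, hp2⟩ := hp
    simp only [Function.uncurry]
    rw [Real.norm_eq_abs, abs_of_nonneg (DD_nonneg _ _ _ _)]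
    refine (DD_le ha hs1 (by linarith [hp1.1, hp2.2]) (by linarith [hp2.1])).trans ?_
    linarith [hp2.1, hp1.2]
  have j2 : Integrable (Function.uncurry fun y d : ℝ => DD a s y d) (μ1.prod μ3) := by
    have hmz : Measurable (Function.uncurry fun y d : ℝ => DD a s y d) := DD_meas a s measurable_fst measurable_snd
    refine Integrable.mono' (g := fun _ => (A ^ 2 - 1) * X + 1) (integrable_const _) hmz.aestronglyMeasurable ?_
    rw [hμ1, hμ3, Measure.prod_restrict]
    filter_upwards [ae_restrict_mem (measurableSet_Ioc.prod measurableSet_Ioc)] with p hp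
    obtain ⟨hp1, hp2⟩ := hp
    simp only [Function.uncurry]
    rw [Real.norm_eq_abs, abs_of_nonneg (DD_nonneg _ _ _ _)]
    refine (DD_le ha hs1 hp2.1.le (by linarith [hp1.1])).trans ?_
    linarith [hp2.2]
  have hdouble : ∫ z in Ioc x (A ^ 2 * X), (∫ y in Ioc X x, DD a s y (z - y)) ≤ (A ^ 2 - 1) * X * J := by
    have e1 : ∫ z in Ioc x (A ^ 2 * X), (∫ y in Ioc X x, DD a s y (z - y)) =
        ∫ y in Ioc X x, ∫ z in Ioc x (A ^ 2 * X), DD a s y (z - y) := integral_integral_swap j1
    have h2 : ∫ y in Ioc X x, ∫ z in Ioc x (A ^ 2 * X), DD a s y (z - y) ≤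
        ∫ y in Ioc X x, ∫ d in Ioc 0 ((A ^ 2 - 1) * X), DD a s y d := by
      refine setIntegral_mono_on j1.integral_prod_right j2.integral_prod_left measurableSet_Ioc ?_
      intro y hy
      have e2 : ∫ z in Ioc x (A ^ 2 * X), DD a s y (z - y) = ∫ d in Ioc (x - y) (A ^ 2 * X - y), DD a s y d := by
        have hpre : (fun z : ℝ => z - y) ⁻¹' (Ioc (x - y) (A ^ 2 * X - y)) = Ioc x (A ^ 2 * X) := by
          ext z; simp
        have := (measurePreserving_sub_right (volume : Measure ℝ) y).setIntegral_preimage_emb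
          (MeasurableEquiv.subRight y).measurableEmbedding (fun d => DD a s y d) (Ioc (x - y) (A ^ 2 * X - y))
        rw [hpre] at this
        exact this
      rw [e2]
      refine setIntegral_mono_set ?_ (ae_of_all _ fun d => DD_nonneg _ _ _ _) (Ioc_subset_Ioc ?_ ?_).eventuallyLE
      · have hmz : Measurable (fun d => DD a s y d) :=
          DD_meas a s measurable_const measurable_id
        refine bdd_int hmz (C := (A ^ 2 - 1) * X + 1) fun t ht => ?_
        rw [abs_of_nonneg (DD_nonneg _ _ _ _)]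
        refine (DD_le ha hs1 ht.1.le (by linarith [hy.1])).trans ?_
        linarith [ht.2]
      · linarith [hy.2]
      · linarith [hy.1]
    have e3 : ∫ y in Ioc X x, ∫ d in Ioc 0 ((A ^ 2 - 1) * X), DD a s y d =
        ∫ d in Ioc 0 ((A ^ 2 - 1) * X), ∫ y in Ioc X x, DD a s y d := integral_integral_swap j2
    have h4 : ∫ d in Ioc 0 ((A ^ 2 - 1) * X), ∫ y in Ioc X x, DD a s y d ≤
        ∫ _d in Ioc 0 ((A ^ 2 - 1) * X), J := by
      refine setIntegral_mono_on j2.integral_prod_right (integrableOn_const (by simp)) measurableSet_Ioc ?_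
      intro d hd
      exact hJ d hd.1.le hd.2
    have e5 : ∫ _d in Ioc 0 ((A ^ 2 - 1) * X), J = (A ^ 2 - 1) * X * J := by
      rw [setIntegral_const, smul_eq_mul, Measure.real, Real.volume_Ioc, sub_zero,
        ENNReal.toReal_ofReal (by positivity)]
    rw [e1]
    refine h2.trans ?_
    rw [e3, ← e5]
    exact h4
  have iP : IntegrableOn (fun t => max (s * SS a t) 0) (Ioc x (A ^ 2 * X)) := by
    have := int_mul a (fun y => max (s * y) 0) ((measurable_id.const_mul s).max measurable_const)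
      (fun y => by
        rw [abs_of_nonneg (le_max_right _ _)]
        refine max_le ?_ (abs_nonneg _)
        calc s * y ≤ |s * y| := le_abs_self _
          _ = |y| := by rw [abs_mul, hs1, one_mul]) (fun _ => 1) (p := x) (x := A ^ 2 * X) continuousOn_const
    simpa using this
  have iR : IntegrableOn (fun z => ∫ y in Ioc X x, DD a s y (z - y)) (Ioc x (A ^ 2 * X)) :=
    j1.integral_prod_left
  have iC : IntegrableOn (fun _ : ℝ => C1 * x ^ θ) (Ioc x (A ^ 2 * X)) := integrableOn_const (by simp)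
  have iQ : IntegrableOn (fun z => A * B / X * (∫ y in Ioc X x, DD a s y (z - y)) + C1 * x ^ θ)
      (Ioc x (A ^ 2 * X)) := (iR.const_mul _).add iC
  calc ∫ y in Ioc x (A ^ 2 * X), max (s * SS a y) 0
      ≤ ∫ z in Ioc x (A ^ 2 * X), (A * B / X * (∫ y in Ioc X x, DD a s y (z - y)) + C1 * x ^ θ) :=
        setIntegral_mono_on iP iQ measurableSet_Ioc hpt
    _ = A * B / X * (∫ z in Ioc x (A ^ 2 * X), (∫ y in Ioc X x, DD a s y (z - y))) +
          (A ^ 2 * X - x) * (C1 * x ^ θ) := by
        rw [integral_add (iR.const_mul _) iC,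
          integral_const_mul, setIntegral_const, smul_eq_mul, Measure.real, Real.volume_Ioc,
          ENNReal.toReal_ofReal (by linarith)]
    _ ≤ A * B / X * ((A ^ 2 - 1) * X * J) + (A ^ 2 * X - x) * (C1 * x ^ θ) := by
        have : 0 ≤ A * B / X := by positivity
        gcongr
    _ = A * B * (A ^ 2 - 1) * J + C1 * A ^ θ * (A ^ 2 - A) * X ^ (1 + θ) := by
        rw [add_comm 1 θ, Real.rpow_add_one hX0.ne', hx, Real.mul_rpow hA0.le hX0.le]
        field_simp
    _ ≤ _ := by
        have h1 : 0 ≤ A * B * (A ^ 2 - 1) := by positivity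
        have h2 : 0 ≤ C1 * A ^ θ * (A ^ 2 - A) := by
          have : 0 ≤ A ^ 2 - A := by nlinarith
          positivity
        have h3 : 0 ≤ X ^ (1 + θ) := by positivity
        nlinarith [mul_nonneg h1 h3, mul_nonneg h2 hJ0]

end

end Pool.Agent.Y853
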